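import Pool.Agent.H.MP_91fb13_lc.A

set_option autoImplicit false

namespace Pool.Agent.Results.MP_91fb13_lc.Rigid

open Set Cardinal Pool.Agent.H.MP_91fb13_lc

universe u

/-- branchwise-real tree: tree order, branches are real intervals, meets exist -/
structure IsBRT (X : Type u) [PartialOrder X] : Prop where
  tree : ∀ x : X, IsChain (· ≤ ·) {y | y ≤ x}
  branch : ∀ B : Set X, IsMaxChain (· ≤ ·) B → ∃ I : Set ℝ, I.OrdConnected ∧ Nonempty (B ≃o I)
  meet : ∀ x y : X, ∃ m, IsGLB {x, y} m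

/-- the number of components above `x` -/
noncomputable def degree {X : Type u} [PartialOrder X] (x : X) : Cardinal.{u} :=
  Cardinal.mk (Quot fun y z : {y // x < y} => ∃ w, x < w ∧ w ≤ y.1 ∧ w ≤ z.1)

/-- For every `κ` at least the continuum there is a rigid uniformly `κ`-branching tree. -/
theorem result (κ : Cardinal.{u}) (h : continuum ≤ κ) :
    ∃ (X : Type u) (_ : PartialOrder X), Nonempty X ∧ IsBRT X ∧ (∀ x : X, degree x = κ) ∧
      ∀ φ : X ≃o X, ∀ x, φ x = x := by
  induction κ using Cardinal.inductionOn with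
  | _ K =>
  have i : Infinite K := infinite_iff.2 (aleph0_le_continuum.trans h)
  let : Inhabited K := ⟨Classical.arbitrary K⟩
  have c : ∀ t, cur (fun _ => (l0 : L K)) t l0 := fun _ => .of_forall fun _ => rfl
  have t : ∀ x : T K, IsChain (· ≤ ·) {y | y ≤ x} := fun x y a z b _ =>
    (le_total y.h z.h).imp (le_of_h a b) (le_of_h b a)
  refine ⟨T K, inferInstance, ⟨mk (H := 0) ⟨⟨0, fun _ _ _ => rfl⟩, fun _ _ =>
    .of_forall fun _ => rfl, fun t _ => .inl (c t), finite_empty.subset fun t p => p.2.2 (c t)⟩⟩,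
    ⟨t, fun B hB => ?_, meet⟩, fun x => le_antisymm ?_ ?_, rigid⟩
  · have m : ∀ x y : B, x.1.h ≤ y.1.h ↔ x ≤ y := fun x y => ⟨fun l =>
      (hB.1.total x.2 y.2).elim id fun k => le_of_h le_rfl k l, fun l => l.1⟩
    let e : B ↪o ℝ := .ofMapLEIff (fun x => x.1.h) m
    refine ⟨range e, ⟨?_⟩, ⟨e.orderIso⟩⟩
    rintro _ ⟨x, rfl⟩ _ ⟨y, rfl⟩ r ⟨-, b⟩
    obtain ⟨p, l, rfl⟩ := res y.1 b
    refine ⟨⟨p, hB.2 (hB.1.insert fun z hz _ => ?_) (subset_insert _ _) ▸ mem_insert _ _⟩, rfl⟩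
    rcases hB.1.total y.2 hz with k | k
    exacts [.inl (l.trans k), (le_total p.h z.h).imp (le_of_h l k) (le_of_h k l)]
  · refine (mk_le_of_injective (f := Quot.lift (fun y => y.1.f x.h) fun y z => (comp y.2 z.2).2)
      ?_).trans ?_
    · rintro ⟨y⟩ ⟨z⟩ e
      exact Quot.sound ((comp y.2 z.2).1 e)
    · have := aleph0_le_mk K
      simpa [mk_real, add_eq_left this h] using
        (mul_eq_right this ((natCast_lt_aleph0 (n := 3)).le.trans this) (by simp)).le
  · choose y a _ b using fun k => ext x (m := (1, .inl k)) (.inr (.inl ⟨rfl, .inr ⟨k, rfl⟩⟩))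
      (lt_add_one _)
    refine mk_le_of_injective (f := fun k => Quot.mk _ ⟨y k, a k⟩) fun k l e => ?_
    simpa [b] using congrArg (Quot.lift (fun y => y.1.f x.h) fun y z => (comp y.2 z.2).2) e

end Pool.Agent.Results.MP_91fb13_lc.Rigid
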